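import Pool.Agent.Lib.MP_28303a_al.NT.Sys

/-! # n trees: commutation of the functors -/

set_option autoImplicit false
set_option linter.unusedSectionVars false
set_option linter.unusedVariables false

namespace Pool.Agent.NegK.NT

universe u

open CategoryTheory Limits

namespace Loc

section

variable {k : Type u} [Ring k] {Γ : Type u} [Group Γ] {B B' : Type u} [MulAction Γ B]
  [MulAction Γ B'] {P : Pre Γ B} {Q : Pre Γ B'}

/-- Restriction commutes with the change of locations. -/
noncomputable def resPush (m : Mono P Q) :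
    (Loc.res : Loc (Polynomial k) P ⥤ Loc k P) ⋙ push m ≅ push m ⋙ Loc.res :=
  NatIso.ofComponents (fun A => Iso.refl _) (fun f => hom_ext rfl)

/-- Change of rings commutes with the change of locations. -/
noncomputable def bcPush {k' : Type u} [Ring k'] (φ : k →+* k') (m : Mono P Q) :
    (Loc.bc φ : Loc k P ⥤ Loc k' P) ⋙ push m ≅ push m ⋙ Loc.bc φ :=
  NatIso.ofComponents (fun A => Iso.refl _) (fun f => hom_ext rfl)

theorem bm_cen {k' : Type u} [Ring k'] (φ : k →+* k') (z : k) (hz : ∀ x, z * x = x * z)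
    (hz' : ∀ x, φ z * x = x * φ z) (A : Loc k P) :
    bm φ ((cen z hz).app A) = (cen (φ z) hz').app (bo A) :=
  ext_basis (A := bo A) (A' := bo A) fun i => by
    have h1 : lin (bm φ ((cen z hz).app A)) (Finsupp.single i 1) =
        mf φ A.ι ((lin ((cen z hz).app A) : A.F →ₗ[MonoidAlgebra k Γ] A.F)
          (Finsupp.single i 1)) := lin_ofB (A := bo A) (A' := bo A) _ _ i
    have h2 : (lin ((cen (φ z) hz').app (bo A)) : (bo A : Loc k' P).F →ₗ[MonoidAlgebra k' Γ]
        (bo A : Loc k' P).F) (Finsupp.single i 1) =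
        MonoidAlgebra.single (1 : Γ) (φ z) • Finsupp.single i 1 := rfl
    refine h1.trans (Eq.trans ?_ h2.symm)
    rw [lin_cen, mf_smul, MonoidAlgebra.mapRingHom_single, mf_single, map_one]

end

end Loc

section

variable {k : Type u} [Ring k] {Γ : Type u} [Group Γ] {B B' : Type u} [MulAction Γ B]
  [MulAction Γ B'] {P : Pre Γ B} {Q : Pre Γ B'}

/-- Change of locations commutes with central elements. -/
theorem push_zz (m : Loc.Mono P Q) (z : k) (hz : ∀ x, z * x = x * z) (X : KK k P) :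
    (hk (Loc.push m)).map ((zz z hz).app X) = (zz z hz).app ((hk (Loc.push m)).obj X) := rfl

/-- Change of rings commutes with central elements. -/
theorem bc_zz {k' : Type u} [Ring k'] (φ : k →+* k') (z : k) (hz : ∀ x, z * x = x * z)
    (hz' : ∀ x, φ z * x = x * φ z) (X : KK k P) :
    (hk (Loc.bc φ)).map ((zz z hz).app X) = (zz (φ z) hz').app ((hk (Loc.bc φ)).obj X) := by
  refine congrArg (HomotopyCategory.quotient (Loc k' P) (ComplexShape.up ℤ)).map ?_
  exact HomologicalComplex.hom_ext _ _ fun n => Loc.bm_cen φ z hz hz' (X.as.X n)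

/-- Products of central elements. -/
theorem zz_mul (z z' : k) (hz : ∀ x, z * x = x * z) (hz' : ∀ x, z' * x = x * z')
    (hzz : ∀ x, (z * z') * x = x * (z * z')) (X : KK k P) :
    (zz z' hz').app X ≫ (zz z hz).app X = (zz (z * z') hzz).app X := by
  change (HomotopyCategory.quotient _ _).map _ ≫ (HomotopyCategory.quotient _ _).map _ =
    (HomotopyCategory.quotient _ _).map _
  rw [← Functor.map_comp]
  congr 1
  refine HomologicalComplex.hom_ext _ _ fun n => Loc.hom_ext (LinearMap.ext fun x => ?_)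
  change MonoidAlgebra.single (1 : Γ) z • MonoidAlgebra.single (1 : Γ) z' • x =
    MonoidAlgebra.single (1 : Γ) (z * z') • x
  rw [smul_smul, MonoidAlgebra.single_mul_single, one_mul]

/-- The unit acts by the identity. -/
theorem zz_one (h1 : ∀ x : k, 1 * x = x * 1) (X : KK k P) : (zz 1 h1).app X = 𝟙 X := by
  obtain ⟨E⟩ := X
  change (HomotopyCategory.quotient _ _).map _ = 𝟙 ((HomotopyCategory.quotient _ _).obj E)
  rw [← CategoryTheory.Functor.map_id]
  congr 1
  refine HomologicalComplex.hom_ext _ _ fun n => Loc.hom_ext (LinearMap.ext fun x => ?_)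
  change MonoidAlgebra.single (1 : Γ) (1 : k) • x = x
  rw [← MonoidAlgebra.one_def, one_smul]

/-- Multiplication by `t ^ n` is an isomorphism over `k[t, t⁻¹]`. -/
theorem isIso_tn (n : ℤ) (X : KK (LaurentPolynomial k) P) : IsIso ((tn n).app X) := by
  have h : ∀ a : ℤ, (tn (-a)).app X ≫ (tn a).app X = 𝟙 X := by
    intro a
    have e : (LaurentPolynomial.T a * LaurentPolynomial.T (-a) : LaurentPolynomial k) = 1 := by
      rw [← LaurentPolynomial.T_add, add_neg_cancel, LaurentPolynomial.T_zero]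
    rw [zz_mul _ _ _ _ (fun x => by rw [e, one_mul, mul_one]), ← zz_one (k := LaurentPolynomial k)
      (fun x => by rw [one_mul, mul_one]) X]
    congr 1
    simp only [e]
  refine ⟨(tn (-n)).app X, ?_, h n⟩
  have := h (-n)
  rwa [neg_neg] at this

/-- The image of `t`. -/
theorem loc_tt (X : KK (Polynomial k) P) :
    (loc k P).map (tt.app X) = (tn 1).app ((loc k P).obj X) := by
  rw [bc_zz Polynomial.toLaurent Polynomial.X xcen (fun x => by
    rw [Polynomial.toLaurent_X]; exact tcen 1 x)]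
  congr 1
  simp only [Polynomial.toLaurent_X]

theorem isIso_loc_tt (X : KK (Polynomial k) P) : IsIso ((loc k P).map (tt.app X)) := by
  rw [loc_tt]
  exact isIso_tn 1 _

theorem tt_nat {X Y : KK (Polynomial k) P} (f : X ⟶ Y) :
    f ≫ tt.app Y = tt.app X ≫ f := tt.naturality f

end

section

variable {k k₁ k₂ k₃ : Type u} [Ring k] [Ring k₁] [Ring k₂] [Ring k₃] {Γ : Type u} [Group Γ]
  {B B₁ B₂ B₃ : Type u} [MulAction Γ B] [MulAction Γ B₁] [MulAction Γ B₂] [MulAction Γ B₃]
  {P : Pre Γ B} {P₁ : Pre Γ B₁} {P₂ : Pre Γ B₂} {P₃ : Pre Γ B₃}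

/-- Squares of functors. -/
noncomputable def sqIso61 {F : Loc k P ⥤ Loc k₁ P₁} {G : Loc k₁ P₁ ⥤ Loc k₃ P₃}
    {F' : Loc k P ⥤ Loc k₂ P₂} {G' : Loc k₂ P₂ ⥤ Loc k₃ P₃} [F.Additive] [G.Additive]
    [F'.Additive] [G'.Additive] (e : F ⋙ G ≅ F' ⋙ G') : hk F ⋙ hk G ≅ hk F' ⋙ hk G' :=
  Functor.mapHomotopyCategoryCompIso (H := F' ⋙ G') e (ComplexShape.up ℤ) ≪≫
    (Functor.mapHomotopyCategoryCompIso (F := F') (G := G') (H := F' ⋙ G') (Iso.refl _)
      (ComplexShape.up ℤ)).symm

end

section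

variable (k : Type u) [Ring k] {Γ : Type u} [Group Γ] (T : Sys Γ) {S S' : Finset (Fin T.m)}
  (h : S' ⊆ S)

/-- Restriction commutes with `L`. -/
noncomputable def Sys.rstL :
    rst k (T.P S) ⋙ T.L k h ≅ T.L (Polynomial k) h ⋙ rst k (T.P S') :=
  sqIso61 (Loc.resPush (T.fg h))

/-- Extension commutes with `L`. -/
noncomputable def Sys.extL :
    ext k (T.P S) ⋙ T.L (Polynomial k) h ≅ T.L k h ⋙ ext k (T.P S') :=
  sqIso61 (Loc.bcPush Polynomial.C (T.fg h))

/-- Localization commutes with `L`. -/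
noncomputable def Sys.locL :
    loc k (T.P S) ⋙ T.L (LaurentPolynomial k) h ≅ T.L (Polynomial k) h ⋙ loc k (T.P S') :=
  sqIso61 (Loc.bcPush (k := Polynomial k) (k' := LaurentPolynomial k) Polynomial.toLaurent (T.fg h))

/-- Forgetting twice. -/
noncomputable def Sys.fgfg {S'' : Finset (Fin T.m)} (h' : S'' ⊆ S') :
    (Loc.push (T.fg h) : Loc k (T.P S) ⥤ Loc k (T.P S')) ⋙ Loc.push (T.fg h') ≅
      Loc.push (T.fg (h'.trans h)) :=
  NatIso.ofComponents (fun A => Iso.refl _) (fun f => Loc.hom_ext rfl)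

/-- `L` of `L`. -/
noncomputable def Sys.LL {S'' : Finset (Fin T.m)} (h' : S'' ⊆ S') (h'' : S'' ⊆ S) :
    T.L k h ⋙ T.L k h' ≅ T.L k h'' :=
  Functor.mapHomotopyCategoryCompIso (F := Loc.push (T.fg h)) (G := Loc.push (T.fg h'))
    (H := Loc.push (T.fg h'')) (T.fgfg k h h') (ComplexShape.up ℤ)

end

end Pool.Agent.NegK.NT
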