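import Pool.Agent.Lib.MP_28303a_al.NT.H61.Cone

/-! # n trees: the lifting step (B)(2)-(4) -/

set_option autoImplicit false
set_option linter.unusedSectionVars false
set_option linter.unusedVariables false

namespace Pool.Agent.NegK.NT

open CategoryTheory Limits Pretriangulated

universe v₁ u₁ v₂ u₂ v₃ u₃ v₄ u₄ v₅ u₅ v₆ u₆

section lift

variable {C₁ : Type u₁} [Category.{v₁} C₁] [HasZeroObject C₁] [HasShift C₁ ℤ] [Preadditive C₁]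
  [∀ n : ℤ, (shiftFunctor C₁ n).Additive] [Pretriangulated C₁]
  {D₁ : Type u₂} [Category.{v₂} D₁] [HasZeroObject D₁] [HasShift D₁ ℤ] [Preadditive D₁]
  [∀ n : ℤ, (shiftFunctor D₁ n).Additive] [Pretriangulated D₁]
  {E₁ : Type u₃} [Category.{v₃} E₁] [HasZeroObject E₁] [HasShift E₁ ℤ] [Preadditive E₁]
  [∀ n : ℤ, (shiftFunctor E₁ n).Additive] [Pretriangulated E₁]
  {C₀ : Type u₄} [Category.{v₄} C₀] [HasZeroObject C₀] [HasShift C₀ ℤ] [Preadditive C₀]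
  [∀ n : ℤ, (shiftFunctor C₀ n).Additive] [Pretriangulated C₀]
  {D₀ : Type u₅} [Category.{v₅} D₀] [HasZeroObject D₀] [HasShift D₀ ℤ] [Preadditive D₀]
  [∀ n : ℤ, (shiftFunctor D₀ n).Additive] [Pretriangulated D₀]
  {E₀ : Type u₆} [Category.{v₆} E₀] [HasZeroObject E₀] [HasShift E₀ ℤ] [Preadditive E₀]
  [∀ n : ℤ, (shiftFunctor E₀ n).Additive] [Pretriangulated E₀]

/-- The lifting step.  `C`, `D`, `E` belong to the rings `k`, `k[z]`, `k[z, z⁻¹]`, the index `1` to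
the labels with, `0` without the direction `i`. -/
theorem liftStep (R : C₁ ⥤ C₀) (Rz : D₁ ⥤ D₀) (Rzz : E₁ ⥤ E₀) (ex : C₁ ⥤ D₁) (ex0 : C₀ ⥤ D₀)
    (Lc : D₁ ⥤ E₁) (Lc0 : D₀ ⥤ E₀) (rs : D₁ ⥤ C₁) (rs0 : D₀ ⥤ C₀)
    [R.CommShift ℤ] [Rz.CommShift ℤ] [Rz.IsTriangulated]
    [Rzz.PreservesZeroMorphisms] [R.Additive] [ex.Additive] [ex0.Additive] [Rz.Additive]
    [Lc.CommShift ℤ] [Lc.IsTriangulated] [Lc0.CommShift ℤ] [Lc0.IsTriangulated]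
    [rs0.CommShift ℤ]
    (eR : rs ⋙ R ≅ Rz ⋙ rs0) (eE : ex ⋙ Rz ≅ R ⋙ ex0) (eL : Lc ⋙ Rzz ≅ Rz ⋙ Lc0)
    (z : ∀ A : D₁, A ⟶ A) (z0 : ∀ A : D₀, A ⟶ A)
    (hzn : ∀ {A B : D₀} (g : A ⟶ B), g ≫ z0 B = z0 A ≫ g)
    (hz : ∀ A, Rz.map (z A) = z0 (Rz.obj A)) (hz0 : ∀ A, IsIso (Lc0.map (z0 A)))
    (W : ObjectProperty C₁) [W.IsStableUnderShift ℤ]
    (Wz : ObjectProperty D₁) [Wz.IsTriangulatedClosed₃] [Wz.IsClosedUnderIsomorphisms]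
    (hex : ∀ A, W A → Wz (ex.obj A))
    (hclear : ∀ D D' : D₁, Wz D → Wz D' → Nonempty (Lc.obj D ≅ Lc.obj D') →
      ∃ a : D ⟶ D', IsIso (Lc.map a))
    (htors : ∀ D : D₁, Wz D → IsZero (Lc.obj D) → W (rs.obj D))
    (hresx : ∀ (X : C₀) (V : D₀), IsCone (z0 (ex0.obj X)) V → Nonempty (rs0.obj V ≅ X))
    (hEXT : ∀ Z : D₁, Wz Z → IsZero (Rzz.obj (Lc.obj Z)) →
      ∃ Y, Wz Y ∧ IsZero (Rz.obj Y) ∧ Nonempty (Lc.obj Y ≅ Lc.obj Z))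
    {C C' : C₁} (hC : W C) (hC' : W C') (t f : C ⟶ C') [IsIso (R.map t)] {X : C₀}
    (s : X ⟶ R.obj C) (r : R.obj C ⟶ X) (hsr : s ≫ r = 𝟙 X)
    (hf : R.map f = r ≫ s ≫ R.map t) :
    ∃ Q, W Q ∧ Nonempty (R.obj Q ≅ X) := by
  obtain ⟨Z, hZ⟩ := IsCone.ex (ex.map (t - f) + ex.map f ≫ z (ex.obj C'))
  have hWZ : Wz Z := hZ.mem Wz (hex C hC) (hex C' hC')
  -- the cone of `z`
  obtain ⟨V, hV⟩ := IsCone.ex (z0 (ex0.obj X))
  have key : Nonempty (V ≅ Rz.obj Z) := by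
    have h1 := hZ.map Rz
    obtain ⟨a, b, n1⟩ : ∃ (a : Rz.obj (ex.obj C) ≅ ex0.obj (R.obj C))
        (b : Rz.obj (ex.obj C') ≅ ex0.obj (R.obj C')), ∀ g : C ⟶ C',
        Rz.map (ex.map g) ≫ b.hom = a.hom ≫ ex0.map (R.map g) :=
      ⟨eE.app C, eE.app C', fun g => eE.hom.naturality g⟩
    have hρσ : ex0.map s ≫ ex0.map r = 𝟙 _ := by
      rw [← Functor.map_comp, hsr, CategoryTheory.Functor.map_id]
    set w : ex0.obj (R.obj C) ⟶ ex0.obj (R.obj C) :=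
      𝟙 _ - ex0.map r ≫ ex0.map s + ex0.map r ≫ z0 (ex0.obj X) ≫ ex0.map s with hw
    have h2 : Rz.map (ex.map (t - f) + ex.map f ≫ z (ex.obj C')) ≫ b.hom =
        a.hom ≫ w ≫ ex0.map (R.map t) := by
      rw [Functor.map_add, Functor.map_comp, hz, Preadditive.add_comp, n1, Category.assoc,
        ← hzn b.hom, ← Category.assoc, n1, Category.assoc, ← Preadditive.comp_add]
      congr 1
      rw [Functor.map_sub, Functor.map_sub, hf, Functor.map_comp, Functor.map_comp, hw,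
        Preadditive.add_comp, Preadditive.sub_comp, Category.id_comp]
      simp only [Category.assoc]
      rw [hzn, ← Category.assoc (ex0.map s), hzn]
      simp only [Category.assoc]
    have h3 : Rz.map (ex.map (t - f) + ex.map f ≫ z (ex.obj C')) ≫
        (b ≪≫ (asIso (ex0.map (R.map t))).symm).hom = a.hom ≫ w := by
      show _ ≫ b.hom ≫ inv (ex0.map (R.map t)) = a.hom ≫ w
      rw [← Category.assoc, h2, Category.assoc, Category.assoc, IsIso.hom_inv_id,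
        Category.comp_id]
    have h4 := h1.of_arrow a (b ≪≫ (asIso (ex0.map (R.map t))).symm) h3
    exact IsCone.idem (ex0.map s) (ex0.map r) hρσ (z0 (ex0.obj X)) w hw hV h4
  obtain ⟨e1⟩ := key
  -- the localisation
  have hVl : IsZero (Lc0.obj V) := by
    have := hz0 (ex0.obj X)
    exact (hV.map Lc0).isZero_of_isIso
  have hZl : IsZero (Rzz.obj (Lc.obj Z)) :=
    (hVl.of_iso (Lc0.mapIso e1).symm).of_iso (eL.app Z)
  obtain ⟨Y, hWY, hY0, hYZ⟩ := hEXT Z hWZ hZl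
  obtain ⟨a, ha⟩ := hclear Z Y hWZ hWY (hYZ.map Iso.symm)
  obtain ⟨Q', hQ'⟩ := IsCone.ex a
  have hWQ : Wz Q' := hQ'.mem Wz hWZ hWY
  have hQl : IsZero (Lc.obj Q') := (hQ'.map Lc).isZero_of_isIso
  have hWr := htors Q' hWQ hQl
  obtain ⟨e2⟩ := (hQ'.map Rz).iso_shift hY0
  obtain ⟨e3⟩ := hresx X V hV
  have e4 : R.obj (rs.obj Q') ≅ X⟦(1 : ℤ)⟧ :=
    eR.app Q' ≪≫ rs0.mapIso (e2 ≪≫ (shiftFunctor D₀ (1 : ℤ)).mapIso e1.symm) ≪≫
      (rs0.commShiftIso (1 : ℤ)).app V ≪≫ (shiftFunctor C₀ (1 : ℤ)).mapIso e3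
  refine ⟨(rs.obj Q')⟦(-1 : ℤ)⟧, ?_, ⟨?_⟩⟩
  · exact W.le_shift (-1) _ hWr
  · exact (R.commShiftIso (-1 : ℤ)).app (rs.obj Q') ≪≫
      (shiftFunctor C₀ (-1 : ℤ)).mapIso e4 ≪≫ (shiftFunctorCompIsoId C₀ (1 : ℤ) (-1) (by lia)).app X

end lift

end Pool.Agent.NegK.NT
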