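import Pool.Agent.Lib.MP_28303a_al.NT.Lab
import Pool.Agent.Lib.MP_28303a_al.NT.H61.Comm
import Pool.Agent.Lib.MP_28303a_al.NT.H61.Lift
import Pool.Agent.Lib.MP_28303a_al.NT.H53.Key

/-! # n trees: the lifting step for located complexes -/

set_option autoImplicit false
set_option linter.unusedSectionVars false
set_option linter.unusedVariables false

namespace Pool.Agent.NegK.NT

universe u

open CategoryTheory Limits Pretriangulated

/-- The facts on perfect objects which are used. -/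
structure H61.PerF : Prop where
  iso : ∀ {k : Type u} [Ring k] {Γ : Type u} [Group Γ] {B : Type u} [MulAction Γ B] {P : Pre Γ B}
    {X Y : KK k P}, (X ≅ Y) → Per X → Per Y
  shift : ∀ {k : Type u} [Ring k] {Γ : Type u} [Group Γ] {B : Type u} [MulAction Γ B] {P : Pre Γ B}
    {X : KK k P}, Per X → ∀ n : ℤ, Per (X⟦n⟧)
  cone : ∀ {k : Type u} [Ring k] {Γ : Type u} [Group Γ] {B : Type u} [MulAction Γ B] {P : Pre Γ B}
    {X Y Z : KK k P} {f : X ⟶ Y} {g : Y ⟶ Z} {w : Z ⟶ X⟦(1 : ℤ)⟧},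
    Triangle.mk f g w ∈ distTriang (KK k P) → Per X → Per Y → Per Z
  bc : ∀ {k k' : Type u} [Ring k] [Ring k'] (φ : k →+* k') {Γ : Type u} [Group Γ] {B : Type u}
    [MulAction Γ B] {P : Pre Γ B} {X : KK k P}, Per X → Per ((hk (Loc.bc φ)).obj X)

section

variable {Γ : Type u} [Group Γ] (T : Sys Γ)

/-- The class `P_S^J(k)`. -/
def Sys.WJ (S J : Finset (Fin T.m)) (k : Type u) [Ring k] : ObjectProperty (KK k (T.P S)) :=
  fun X => T.PJ S J k X

theorem Sys.wj_iso (hP : H61.PerF.{u}) {S J : Finset (Fin T.m)} {k : Type u} [Ring k]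
    {X Y : KK k (T.P S)} (e : X ≅ Y) (h : T.PJ S J k X) : T.PJ S J k Y :=
  ⟨hP.iso e h.per, fun j hj => (h.ac j hj).of_iso ((T.L k (S.erase_subset j)).mapIso e).symm⟩

theorem Sys.wj_shift (hP : H61.PerF.{u}) {S J : Finset (Fin T.m)} {k : Type u} [Ring k]
    {X : KK k (T.P S)} (h : T.PJ S J k X) (n : ℤ) : T.PJ S J k (X⟦n⟧) :=
  ⟨hP.shift h.per n, fun j hj =>
    ((shiftFunctor (KK k (T.P (S.erase j))) n).map_isZero (h.ac j hj)).of_iso
      (((T.L k (S.erase_subset j)).commShiftIso n).app X)⟩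

theorem Sys.wj_cone (hP : H61.PerF.{u}) {S J : Finset (Fin T.m)} {k : Type u} [Ring k]
    {X Y Z : KK k (T.P S)} {f : X ⟶ Y} {g : Y ⟶ Z} {w : Z ⟶ X⟦(1 : ℤ)⟧}
    (hT : Triangle.mk f g w ∈ distTriang (KK k (T.P S))) (hX : T.PJ S J k X)
    (hY : T.PJ S J k Y) : T.PJ S J k Z :=
  ⟨hP.cone hT hX.per hY.per, fun j hj => by
    have h1 : IsCone f Z := ⟨g, w, hT⟩
    have h2 := h1.map (T.L k (S.erase_subset j))
    have h3 : IsIso ((T.L k (S.erase_subset j)).map f) :=
      ⟨0, (hX.ac j hj).eq_of_src _ _, (hY.ac j hj).eq_of_src _ _⟩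
    exact h2.isZero_of_isIso⟩

theorem Sys.wj_ext (hP : H61.PerF.{u}) {S J : Finset (Fin T.m)} {k : Type u} [Ring k]
    {X : KK k (T.P S)} (h : T.PJ S J k X) : T.PJ S J (Polynomial k) ((ext k (T.P S)).obj X) :=
  ⟨hP.bc Polynomial.C h.per, fun j hj =>
    ((ext k (T.P (S.erase j))).map_isZero (h.ac j hj)).of_iso
      ((T.extL k (S.erase_subset j)).app X)⟩

theorem Sys.wj_loc (hP : H61.PerF.{u}) {S J : Finset (Fin T.m)} {k : Type u} [Ring k]
    {X : KK (Polynomial k) (T.P S)} (h : T.PJ S J (Polynomial k) X) :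
    T.PJ S J (LaurentPolynomial k) ((loc k (T.P S)).obj X) :=
  ⟨hP.bc (k := Polynomial k) (k' := LaurentPolynomial k) Polynomial.toLaurent h.per, fun j hj =>
    ((loc k (T.P (S.erase j))).map_isZero (h.ac j hj)).of_iso
      ((T.locL k (S.erase_subset j)).app X)⟩

/-- The restriction of a torsion object. -/
theorem Sys.wj_rst (hT : ∀ (k : Type u) [Ring k] (S : Finset (Fin T.m)), TORS k (T.P S))
    {S J : Finset (Fin T.m)} {k : Type u} [Ring k]
    {X : KK (Polynomial k) (T.P S)} (h : T.PJ S J (Polynomial k) X)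
    (h0 : IsZero ((loc k (T.P S)).obj X)) : T.PJ S J k ((rst k (T.P S)).obj X) :=
  ⟨hT k S X h.per h0, fun j hj =>
    ((rst k (T.P (S.erase j))).map_isZero (h.ac j hj)).of_iso
      ((T.rstL k (S.erase_subset j)).app X)⟩

theorem Sys.zero_le {S S' S'' : Finset (Fin T.m)} {k : Type u} [Ring k] (h : S' ⊆ S)
    (h' : S'' ⊆ S') (h'' : S'' ⊆ S) {X : KK k (T.P S)} (h0 : IsZero ((T.L k h).obj X)) :
    IsZero ((T.L k h'').obj X) :=
  ((T.L k h').map_isZero h0).of_iso ((T.LL k h h' h'').app X).symm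

/-- Objects over `k[t]` which become isomorphic over `k[t, t⁻¹]`. -/
theorem clear_of_cd {k : Type u} [Ring k] {B : Type u} [MulAction Γ B] {P : Pre Γ B}
    (hCD : CD k P) {D D' : KK (Polynomial k) P} (h : Per D)
    (e : (loc k P).obj D ≅ (loc k P).obj D') : ∃ a : D ⟶ D', IsIso ((loc k P).map a) := by
  obtain ⟨n, f, hf⟩ := (hCD D D' h).1 e.hom
  refine ⟨f, ?_⟩
  have h1 : IsIso ((tn (n : ℤ)).app ((loc k P).obj D')) := isIso_tn (n : ℤ) ((loc k P).obj D')
  have h2 : IsIso (e.hom ≫ (tn (n : ℤ)).app ((loc k P).obj D')) :=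
    IsIso.comp_isIso' inferInstance h1
  rw [hf]
  exact h2

/-- STEPB. -/
theorem stepB_of (hP : H61.PerF.{u}) (hF3 : T.F3)
    (hCD : ∀ (k : Type u) [Ring k] (S : Finset (Fin T.m)), CD k (T.P S))
    (hT : ∀ (k : Type u) [Ring k] (S : Finset (Fin T.m)), TORS k (T.P S)) : T.STEPB := by
  intro S J i hJS hi hEXT k _ hk X hX
  obtain ⟨C, C', t, f, s, r, hC, hC', ht, hsr, hf⟩ := hF3 S J i hJS hi k X hX
  have hSi : S ⊆ insert i S := Finset.subset_insert i S
  have h1 : (T.WJ (insert i S) J k).IsStableUnderShift ℤ :=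
    { isStableUnderShiftBy := fun n => ⟨fun X hX => T.wj_shift hP hX n⟩ }
  have h2 : (T.WJ (insert i S) J (Polynomial k)).IsClosedUnderIsomorphisms :=
    ⟨fun e h => T.wj_iso hP e h⟩
  have h3 : (T.WJ (insert i S) J (Polynomial k)).IsTriangulatedClosed₃ :=
    { ext₃' := fun Tr hTr ha hb => ObjectProperty.le_isoClosure _ _
        (T.wj_cone hP (f := Tr.mor₁) (g := Tr.mor₂) (w := Tr.mor₃) hTr ha hb) }
  have hEXT' : ∀ Z : KK (Polynomial k) (T.P (insert i S)),
      T.WJ (insert i S) J (Polynomial k) Z →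
      IsZero ((T.L (LaurentPolynomial k) hSi).obj ((loc k (T.P (insert i S))).obj Z)) →
      ∃ Y, T.WJ (insert i S) J (Polynomial k) Y ∧ IsZero ((T.L (Polynomial k) hSi).obj Y) ∧
        Nonempty ((loc k (T.P (insert i S))).obj Y ≅ (loc k (T.P (insert i S))).obj Z) := by
    intro Z hZ h0
    have hS1 : (insert i S).erase i ⊆ S := by rw [Finset.erase_insert hi]
    have hS2 : S ⊆ (insert i S).erase i := by rw [Finset.erase_insert hi]
    have hl : T.PJ (insert i S) J (LaurentPolynomial k)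
      ((loc k (T.P (insert i S))).obj Z) := T.wj_loc hP hZ
    obtain ⟨Y, hY, hYZ⟩ := hEXT k hk ((loc k (T.P (insert i S))).obj Z) ⟨hl.per, fun j hj => by
      rcases Finset.mem_insert.1 hj with rfl | hj
      · exact T.zero_le hSi hS1 ((insert j S).erase_subset j) h0
      · exact hl.ac j hj⟩
    exact ⟨Y, ⟨hY.per, fun j hj => hY.ac j (Finset.mem_insert_of_mem hj)⟩,
      T.zero_le ((insert i S).erase_subset i) hS2 hSi (hY.ac i (Finset.mem_insert_self i J)), hYZ⟩
  exact liftStep (T.L k hSi) (T.L (Polynomial k) hSi) (T.L (LaurentPolynomial k) hSi)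
    (ext k (T.P (insert i S))) (ext k (T.P S)) (loc k (T.P (insert i S))) (loc k (T.P S))
    (rst k (T.P (insert i S))) (rst k (T.P S)) (T.rstL k hSi) (T.extL k hSi) (T.locL k hSi)
    (fun A => tt.app A) (fun A => tt.app A) (fun g => tt_nat g)
    (fun A => push_zz (T.fg hSi) Polynomial.X xcen A) (fun A => isIso_loc_tt A)
    (T.WJ (insert i S) J k) (T.WJ (insert i S) J (Polynomial k))
    (fun A hA => T.wj_ext hP hA)
    (fun D D' hD hD' e => clear_of_cd (hCD k (insert i S)) hD.per e.some)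
    (fun D hD h0 => T.wj_rst hT hD h0)
    (fun X V hV => by
      obtain ⟨g, w, hw⟩ := hV
      exact resx X hw)
    hEXT' hC hC' t f s r hsr (by rw [hf, Category.assoc])

end

end Pool.Agent.NegK.NT
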