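import Pool.Agent.Lib.MP_28303a_al.NT.Fin
import Pool.Agent.Lib.MP_28303a_al.NT.A.Iface
import Pool.Agent.Lib.MP_28303a_al.NT.A.Adapt
import Pool.Agent.Lib.MP_28303a_al.NT.A.Elh
import Pool.Agent.Lib.MP_28303a_al.NT.A.Imloc
import Pool.Agent.Lib.MP_28303a_al.NT.A.Uniloc
import Pool.Agent.Lib.MP_28303a_al.NT.H1.Top
import Pool.Agent.Lib.MP_28303a_al.NT.H5.Tac
import Pool.Agent.Lib.MP_28303a_al.NT.H15.Ind
import Pool.Agent.Lib.MP_28303a_al.NT.H25.Lam
import Pool.Agent.Lib.MP_28303a_al.NT.H27.F3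
import Pool.Agent.Lib.MP_28303a_al.NT.H32.Ret
import Pool.Agent.Lib.MP_28303a_al.NT.H34.Rlj
import Pool.Agent.Lib.MP_28303a_al.NT.H47.Kos3
import Pool.Agent.Lib.MP_28303a_al.NT.H47.Tacs
import Pool.Agent.Lib.MP_28303a_al.NT.H53.Key
import Pool.Agent.Lib.MP_28303a_al.NT.H58.Grb
import Pool.Agent.Lib.MP_28303a_al.NT.H60.Ic
import Pool.Agent.Lib.MP_28303a_al.NT.H61.Step
import Pool.Agent.Lib.MP_28303a_al.NT.H65.Eul
import Pool.Agent.Lib.MP_28303a_al.NT.H66.TreeE
import Pool.Agent.Lib.MP_28303a_al.NT.H67.Resn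
import Pool.Agent.Lib.MP_28303a_al.NT.H68.Tacim
import Pool.Agent.Lib.MP_28303a_al.NT.H7.Kar
import Pool.Agent.Lib.MP_28303a_al.NT.H7.Spl
import Pool.Agent.Lib.MP_28303a_al.NT.H70.Cons
import Pool.Agent.Lib.MP_28303a_al.NT.H73.Good
import Pool.Agent.Lib.MP_28303a_al.NT.H73.Tors
import Pool.Agent.Lib.MP_28303a_al.NT.H74.Den
import Pool.Agent.Lib.MP_28303a_al.NT.H76.Zh
import Pool.Agent.Lib.MP_28303a_al.NT.H78.Regb
import Pool.Agent.Lib.MP_28303a_al.NT.H80.Perf
import Pool.Agent.Lib.MP_28303a_al.NT.H85.Evp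
import Pool.Agent.Lib.MP_28303a_al.NT.H9.Isloc
import Pool.Agent.Lib.MP_28303a_al.NT.H90.Conex
import Pool.Agent.Lib.MP_28303a_al.NT.H91.Haa
import Pool.Agent.Lib.MP_28303a_al.NT.H91.Kgen
import Pool.Agent.Lib.MP_28303a_al.NT.H92.Dev

/-! # n trees: the assembly -/

set_option autoImplicit false
set_option linter.unusedSectionVars false
set_option linter.unusedVariables false

namespace Pool.Agent.NegK.NT

universe u

open CategoryTheory Limits Pretriangulated

/-- The facts on perfect objects. -/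
theorem perF : H61.PerF.{u} where
  iso e h := per_iso e h
  shift h n := per_shift h n
  cone hT hX hY := per3 hT hX hY
  bc φ _ _ _ _ _ _ h := per_bc φ h

section

variable {Γ : Type u} [Group Γ] (T : Sys Γ)

/-- F3. -/
theorem f3 : T.F3 := H27.f3 T (H47.kos T) (lam T) (rlj T)

/-- STEPB. -/
theorem stepB : T.STEPB :=
  stepB_of T perF (f3 T) (fun k _ S => H74.cd k (T.P S))
    (fun k _ S => H73.tors_of k (T.P S) (H74.cd k (T.P S)) (key k (T.P S)))

theorem consS : ConsStatement.{u} := H70.cons H85.evp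

theorem isoS : IsoStatement.{u} := H70.iso consS perS

theorem topS : TopStatement.{u} := H1.top H85.evp

theorem tacS : TacStatement.{u} := H5.tac elh H47.tacs consS

theorem goodS : GoodStatement.{u} := H73.good H85.evp topS HNN.kar

/-- The base case. -/
theorem baseS (D : T.Tr) (hF : T.Fin') : T.BASE :=
  base' H91.haa tacS isloc H76.zh imloc HNN.tacim H91.resn uniloc topS isoS
    (H92.dev H91.bdd consS H91.haa H91.resn topS perS) (H90.conex perS denS) (H78.reg goodS) Γ T D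
    hF (H32.ret T (H47.kos T))

/-- Every perfect object over `∅` comes from one over `univ`. -/
theorem liftsS (D : T.Tr) (hF : T.Fin') (k : Type u) [Ring k]
    (hk : RegularRing k) : T.LIFTS k :=
  H15.lifts T (stepB T) (baseS T D hF) k hk

theorem kgenS : T.KGEN :=
  H91.kgen T (fun k _ => ic k _) (fun k _ => H65.eul k _) (fun k _ => spl k _) (H58.grb T)

end

open Pool.Agent.NegK.TW Pool.Agent.NegK.TT

/-- Groups acting on `m` trees: `K₀(k[Γ])` is generated by the joint stabilizers of vertices. -/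
theorem trees {Γ : Type u} [Group Γ] (Y : Trees Γ) (h : ∀ v, InRC (Y.st v))
    (k : Type u) [Ring k] (hk : RegularRing k) :
    ⨆ v, img k (Y.st v) = ⊤ := by
  obtain ⟨D⟩ := H66.TD.exists_tr Y
  exact gen_trees Y (H66.TD.sys Y) (H66.TD.isSys Y)
    (fun k _ hk => liftsS _ D (H66.TD.fin' Y h) k hk) (kgenS _) k hk

end Pool.Agent.NegK.NT
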