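import Pool.Agent.Lib.MP_28303a_al.NT.Tri

/-! # n trees: cones -/

set_option autoImplicit false
set_option linter.unusedSectionVars false
set_option linter.unusedVariables false

namespace Pool.Agent.NegK.NT

open CategoryTheory Limits Pretriangulated

universe v₁ u₁ v₂ u₂ v₃ u₃

section cone

variable {C : Type u₁} [Category.{v₁} C] [HasZeroObject C] [HasShift C ℤ] [Preadditive C]
  [∀ n : ℤ, (shiftFunctor C n).Additive] [Pretriangulated C]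

/-- `Z` is a cone of `f`. -/
def IsCone {A B : C} (f : A ⟶ B) (Z : C) : Prop :=
  ∃ (g : B ⟶ Z) (h : Z ⟶ A⟦(1 : ℤ)⟧), Triangle.mk f g h ∈ distTriang C

namespace IsCone

theorem ex {A B : C} (f : A ⟶ B) : ∃ Z, IsCone f Z := by
  obtain ⟨Z, g, h, hT⟩ := distinguished_cocone_triangle f
  exact ⟨Z, g, h, hT⟩

theorem congr {A B A' B' Z Z' : C} {f : A ⟶ B} {f' : A' ⟶ B'} (a : A ⟶ A') (b : B ⟶ B')
    [IsIso a] [IsIso b] (hab : f ≫ b = a ≫ f') (hZ : IsCone f Z) (hZ' : IsCone f' Z') :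
    Nonempty (Z ≅ Z') := by
  obtain ⟨g, h, hT⟩ := hZ
  obtain ⟨g', h', hT'⟩ := hZ'
  obtain ⟨c, h1, h2⟩ := exists_cone_map hT hT' a b hab
  have := isIso_cone_map hT hT' a b hab c h1 h2
  exact ⟨asIso c⟩

theorem unique {A B Z Z' : C} {f : A ⟶ B} (hZ : IsCone f Z) (hZ' : IsCone f Z') :
    Nonempty (Z ≅ Z') :=
  congr (𝟙 A) (𝟙 B) (by simp) hZ hZ'

theorem isZero_of_isIso {A B Z : C} {f : A ⟶ B} [IsIso f] (hZ : IsCone f Z) : IsZero Z := by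
  obtain ⟨g, h, hT⟩ := hZ
  exact Triangle.isZero₃_of_isIso₁ _ hT (show IsIso f from inferInstance)

theorem isIso_of_isZero {A B Z : C} {f : A ⟶ B} (hZ : IsCone f Z) (h0 : IsZero Z) : IsIso f := by
  obtain ⟨g, h, hT⟩ := hZ
  exact (Triangle.isZero₃_iff_isIso₁ _ hT).1 h0

/-- The cone of a map to zero is the shift. -/
theorem iso_shift {A B Z : C} {f : A ⟶ B} (hZ : IsCone f Z) (hB : IsZero B) :
    Nonempty (Z ≅ A⟦(1 : ℤ)⟧) := by
  obtain ⟨g, h, hT⟩ := hZ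
  have : IsIso h := (Triangle.isZero₂_iff_isIso₃ _ hT).1 hB
  exact ⟨asIso h⟩

/-- The cone of a map from zero is the target. -/
theorem iso_tgt {A B Z : C} {f : A ⟶ B} (hZ : IsCone f Z) (hA : IsZero A) :
    Nonempty (B ≅ Z) := by
  obtain ⟨g, h, hT⟩ := hZ
  have : IsIso g := (Triangle.isZero₁_iff_isIso₂ _ hT).1 hA
  exact ⟨asIso g⟩

theorem of_iso {A B Z Z' : C} {f : A ⟶ B} (hZ : IsCone f Z) (e : Z ≅ Z') : IsCone f Z' := by
  obtain ⟨g, h, hT⟩ := hZ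
  refine ⟨g ≫ e.hom, e.inv ≫ h, isomorphic_distinguished _ hT _ ?_⟩
  exact Triangle.isoMk _ _ (Iso.refl _) (Iso.refl _) e.symm
    (show f ≫ 𝟙 B = 𝟙 A ≫ f by simp)
    (show (g ≫ e.hom) ≫ e.inv = 𝟙 B ≫ g by simp)
    (show (e.inv ≫ h) ≫ (𝟙 A)⟦(1 : ℤ)⟧' = e.inv ≫ h by simp)

/-- The cone only depends on the isomorphism class of the map. -/
theorem of_arrow {A B A' B' Z : C} {f : A ⟶ B} {f' : A' ⟶ B'} (a : A ≅ A') (b : B ≅ B')
    (hab : f ≫ b.hom = a.hom ≫ f') (hZ : IsCone f Z) : IsCone f' Z := by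
  obtain ⟨Z', hZ'⟩ := ex f'
  obtain ⟨e⟩ := congr a.hom b.hom hab hZ hZ'
  exact hZ'.of_iso e.symm

/-- Closed classes of objects. -/
theorem mem (P : ObjectProperty C) [P.IsTriangulatedClosed₃] [P.IsClosedUnderIsomorphisms]
    {A B Z : C} {f : A ⟶ B} (hZ : IsCone f Z) (hA : P A) (hB : P B) : P Z := by
  obtain ⟨g, h, hT⟩ := hZ
  exact P.ext_of_isTriangulatedClosed₃ _ hT hA hB

/-- `u = 1 - r s + r z s` and `z` have isomorphic cones if `s r = 1`. -/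
theorem idem {A₀ A₁ V W : C} (s : A₀ ⟶ A₁) (r : A₁ ⟶ A₀) (hsr : s ≫ r = 𝟙 A₀)
    (z : A₀ ⟶ A₀) (u : A₁ ⟶ A₁) (hu : u = 𝟙 A₁ - r ≫ s + r ≫ z ≫ s) (hV : IsCone z V)
    (hW : IsCone u W) : Nonempty (V ≅ W) := by
  obtain ⟨g, h, hV⟩ := hV
  obtain ⟨g', h', hW⟩ := hW
  exact cone_idem s r hsr z u hu hV hW

variable {D : Type u₂} [Category.{v₂} D] [HasZeroObject D] [HasShift D ℤ] [Preadditive D]
  [∀ n : ℤ, (shiftFunctor D n).Additive] [Pretriangulated D]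

/-- Triangulated functors preserve cones. -/
theorem map (F : C ⥤ D) [F.CommShift ℤ] [F.IsTriangulated] {A B Z : C} {f : A ⟶ B}
    (hZ : IsCone f Z) : IsCone (F.map f) (F.obj Z) := by
  obtain ⟨g, h, hT⟩ := hZ
  exact ⟨_, _, F.map_distinguished _ hT⟩

end IsCone

end cone

end Pool.Agent.NegK.NT
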